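import Pool.Agent.Helper45.CF.GoalsC

/-!
# Packet CF2-UCH
-/

open scoped ComplexOrder ZeroAtInfty Topology ComplexConjugate NNReal
open TopologicalSpace Filter

namespace Pool.Agent.Helper62.CF2.UCH

open Pool.Agent.Helper34.CAR Pool.Agent.Helper39.CR Pool.Agent.Helper39.Uct
  Pool.Agent.Helper39.CarDefs Pool.Agent.Helper45.CF

noncomputable section

variable (E : Type) [NonUnitalCStarAlgebra E]

theorem tendsto_add (u : ℝ≥0) :
    Tendsto (fun r : ℝ≥0 => r + u) (cocompact ℝ≥0) (cocompact ℝ≥0) := by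
  have h : Isometry (fun r : ℝ≥0 => r + u) := by
    refine Isometry.of_dist_eq fun x y => ?_
    rw [NNReal.dist_eq, NNReal.dist_eq]
    push_cast
    congr 1
    ring
  exact h.isClosedEmbedding.tendsto_cocompact

/-- the shift -/
def sh (u : ℝ≥0) : C₀(ℝ≥0, E) →⋆ₙₐ[ℂ] C₀(ℝ≥0, E) where
  toFun f := ⟨⟨fun r => f (r + u), by fun_prop⟩, (zero_at_infty f).comp (tendsto_add u)⟩
  map_smul' _ _ := rfl
  map_zero' := rfl
  map_add' _ _ := rfl
  map_mul' _ _ := rfl
  map_star' _ := rfl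

theorem sh_apply (u : ℝ≥0) (f : C₀(ℝ≥0, E)) (r : ℝ≥0) : sh E u f r = f (r + u) := rfl

/-- the shift of pairs -/
def k (u : ℝ≥0) : Two E →⋆ₙₐ[ℂ] Two E where
  toFun x := (sh E u x.1, sh E u x.2)
  map_smul' _ _ := rfl
  map_zero' := rfl
  map_add' _ _ := rfl
  map_mul' _ _ := rfl
  map_star' _ := rfl

theorem norm_le_c0 (f : C₀(ℝ≥0, E)) (C : ℝ) (hC : 0 ≤ C) (h : ∀ x, ‖f x‖ ≤ C) : ‖f‖ ≤ C := by
  rw [← ZeroAtInftyContinuousMap.norm_toBCF_eq_norm]
  exact (BoundedContinuousFunction.norm_le hC).2 h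

theorem norm_le_two (x : Two E) (C : ℝ) (hC : 0 ≤ C) (h1 : ∀ r, ‖x.1 r‖ ≤ C)
    (h2 : ∀ r, ‖x.2 r‖ ≤ C) : ‖x‖ ≤ C := by
  rw [Prod.norm_def]
  exact max_le (norm_le_c0 E _ C hC h1) (norm_le_c0 E _ C hC h2)

theorem ev_far (f : C₀(ℝ≥0, E)) (η : ℝ) (hη : 0 < η) :
    ∀ᶠ U : ℝ≥0 in atTop, ∀ r, U ≤ r → ‖f r‖ ≤ η := by
  have h1 : Tendsto f atTop (𝓝 0) := (zero_at_infty f).mono_left atTop_le_cocompact
  have h2 : ∀ᶠ r in atTop, ‖f r‖ < η := by
    have := h1.norm
    rw [norm_zero] at this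
    exact this.eventually (gt_mem_nhds hη)
  obtain ⟨U, hU⟩ := eventually_atTop.1 h2
  refine eventually_atTop.2 ⟨U, fun V hV r hr => (hU r (hV.trans hr)).le⟩

theorem ev_near (f : C₀(ℝ≥0, E)) (η : ℝ) (hη : 0 < η) :
    ∀ᶠ δ : ℝ in 𝓝[>] 0, ∀ r r', dist r r' ≤ δ → ‖f r - f r'‖ ≤ η := by
  have h1 : UniformContinuous f := ZeroAtInftyContinuousMap.uniformContinuous f
  obtain ⟨δ, hδ, h2⟩ := Metric.uniformContinuous_iff.1 h1 η hη
  have h3 : ∀ᶠ x : ℝ in 𝓝[>] 0, x < δ := by
    have : Set.Iio δ ∈ 𝓝 (0 : ℝ) := Iio_mem_nhds hδ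
    exact mem_nhdsWithin_of_mem_nhds this
  filter_upwards [h3] with x hx r r' hr
  rw [← dist_eq_norm]
  exact (h2 (lt_of_le_of_lt hr hx)).le

theorem fst_sub {A : Type} [NonUnitalCStarAlgebra A] (x y : Unitization ℂ A) :
    (x - y).fst = x.fst - y.fst := rfl

theorem snd_sub {A : Type} [NonUnitalCStarAlgebra A] (x y : Unitization ℂ A) :
    (x - y).snd = x.snd - y.snd := rfl

/-- UCH. -/
theorem t : S_UCH := by
  intro E _ F η hη
  have hU : ∀ᶠ U : ℝ≥0 in atTop, ∀ b ∈ F, (∀ r, U ≤ r → ‖b.snd.1 r‖ ≤ η) ∧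
      (∀ r, U ≤ r → ‖b.snd.2 r‖ ≤ η) := by
    rw [eventually_all_finset]
    intro b _
    exact (ev_far E b.snd.1 η hη).and (ev_far E b.snd.2 η hη)
  have hδ : ∀ᶠ δ : ℝ in 𝓝[>] 0, ∀ b ∈ F, (∀ r r', dist r r' ≤ δ → ‖b.snd.1 r - b.snd.1 r'‖ ≤ η) ∧
      (∀ r r', dist r r' ≤ δ → ‖b.snd.2 r - b.snd.2 r'‖ ≤ η) := by
    rw [eventually_all_finset]
    intro b _
    exact (ev_near E b.snd.1 η hη).and (ev_near E b.snd.2 η hη)
  obtain ⟨U, hU⟩ := hU.exists
  obtain ⟨δ, hδ, hδ0⟩ := (hδ.and self_mem_nhdsWithin).exists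
  have hδ0 : 0 < δ := hδ0
  obtain ⟨n, hn⟩ := exists_nat_gt ((U : ℝ) / δ)
  have hn0 : (0 : ℝ) < n := lt_of_le_of_lt (by positivity) hn
  have hstep : (U : ℝ) / n ≤ δ := by
    rw [div_lt_iff₀ hδ0] at hn
    rw [div_le_iff₀ hn0]
    linarith
  let q : ℕ → ℝ≥0 := fun j => (j : ℝ≥0) * U / n
  refine ⟨n + 1, fun j => if j ≤ n then Unitization.starMap (k E (q j)) else
    (algC (Unitization ℂ (Two E))).comp (omU (Two E)), ?_, ?_, ?_⟩
  · intro b
    dsimp only
    rw [if_pos (Nat.zero_le _)]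
    refine Unitization.ext (starMap_fst _ _) ?_
    rw [starMap_snd]
    have hq : q 0 = 0 := by simp [q]
    rw [hq]
    refine Prod.ext ?_ ?_
    · ext r
      show b.snd.1 (r + 0) = b.snd.1 r
      rw [add_zero]
    · ext r
      show b.snd.2 (r + 0) = b.snd.2 r
      rw [add_zero]
  · intro b
    dsimp only
    rw [if_neg (by omega)]
    rfl
  · intro b hb j hj
    dsimp only
    rw [if_pos (by omega)]
    by_cases hjn : j < n
    · rw [if_pos (by omega)]
      have e : Unitization.starMap (k E (q j)) b - Unitization.starMap (k E (q (j + 1))) b =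
          ((k E (q j) b.snd - k E (q (j + 1)) b.snd : Two E) : Unitization ℂ (Two E)) := by
        refine Unitization.ext ?_ ?_
        · rw [fst_sub, starMap_fst, starMap_fst, sub_self, Unitization.fst_inr]
        · rw [snd_sub, starMap_snd, starMap_snd, Unitization.snd_inr]
      rw [e, Unitization.norm_inr]
      have hd : ∀ r : ℝ≥0, dist (r + q j) (r + q (j + 1)) ≤ δ := by
        intro r
        rw [NNReal.dist_eq]
        have : (((r + q j : ℝ≥0) : ℝ) - ((r + q (j + 1) : ℝ≥0) : ℝ)) = -((U : ℝ) / n) := by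
          simp only [q]
          push_cast
          ring
        rw [this, abs_neg, abs_of_nonneg (by positivity)]
        exact hstep
      exact norm_le_two E _ η hη.le (fun r => (hδ b hb).1 _ _ (hd r))
        (fun r => (hδ b hb).2 _ _ (hd r))
    · have hjn' : j = n := by omega
      subst hjn'
      rw [if_neg (by omega)]
      have hq : q j = U := by
        simp only [q]
        have : (j : ℝ≥0) ≠ 0 := by
          intro h
          have : (j : ℝ) = 0 := by exact_mod_cast h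
          linarith
        field_simp
      have e : Unitization.starMap (k E (q j)) b -
          (algC (Unitization ℂ (Two E))).comp (omU (Two E)) b =
          ((k E (q j) b.snd : Two E) : Unitization ℂ (Two E)) := by
        have e2 : (algC (Unitization ℂ (Two E))).comp (omU (Two E)) b =
          algebraMap ℂ (Unitization ℂ (Two E)) b.fst := rfl
        rw [e2, Unitization.algebraMap_eq_inl]
        refine Unitization.ext ?_ ?_
        · rw [fst_sub, starMap_fst, Unitization.fst_inl, sub_self, Unitization.fst_inr]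
        · rw [snd_sub, starMap_snd, Unitization.snd_inl, Unitization.snd_inr, sub_zero]
      rw [e, Unitization.norm_inr, hq]
      exact norm_le_two E _ η hη.le (fun r => (hU b hb).1 _ le_add_self)
        (fun r => (hU b hb).2 _ le_add_self)

end

end Pool.Agent.Helper62.CF2.UCH
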